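import Pool.Agent.X143.SD.Stm

/-! Part ODE of project SD (helper143). -/

namespace Pool.Agent.X263.SD

open Finset Pool.Agent.X143.SD Filter Topology

noncomputable def P (d : ℕ) (s : ℝ) : ℝ := PP d (cc (max s 0))

lemma cc_nonneg {s : ℝ} (hs : 0 ≤ s) : 0 ≤ cc s ∧ cc s ≤ 1 := by
  unfold cc
  have h1 : s + 1 ≤ Real.exp s := Real.add_one_le_exp s
  have h2 : 0 < Real.exp (-s) := Real.exp_pos _
  have h3 : Real.exp s * Real.exp (-s) = 1 := by rw [← Real.exp_add]; simp
  constructor
  · nlinarith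
  · nlinarith

lemma P_bounds {d : ℕ} (hd : 1 ≤ d) (s : ℝ) : 1 ≤ P d s ∧ P d s ≤ d := by
  obtain ⟨h1, h2⟩ := cc_nonneg (le_max_right s 0)
  unfold P PP
  constructor
  · have : (∑ j ∈ range 1, cc (max s 0) ^ j) ≤ ∑ j ∈ range d, cc (max s 0) ^ j :=
      Finset.sum_le_sum_of_subset_of_nonneg (Finset.range_mono hd)
        (fun j _ _ => pow_nonneg h1 j)
    simpa using this
  · have : ∑ j ∈ range d, cc (max s 0) ^ j ≤ ∑ j ∈ range d, (1 : ℝ) :=
      Finset.sum_le_sum (fun j _ => pow_le_one₀ h1 h2)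
    simpa using this

lemma cc_cont : Continuous cc := by
  unfold cc; fun_prop

lemma PP_cont (d : ℕ) : Continuous (PP d) := by
  unfold PP; fun_prop

lemma P_cont (d : ℕ) : Continuous (P d) := by
  unfold P
  exact (PP_cont d).comp (cc_cont.comp (continuous_id.max continuous_const))

noncomputable def F (d : ℕ) (u : ℝ) : ℝ := ∫ s in (0 : ℝ)..u, 1 / P d s

lemma invP_cont {d : ℕ} (hd : 1 ≤ d) : Continuous (fun s => 1 / P d s) := by
  refine continuous_const.div (P_cont d) (fun s => ?_)
  have := (P_bounds hd s).1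
  linarith

lemma F_der {d : ℕ} (hd : 1 ≤ d) (u : ℝ) : HasDerivAt (F d) (1 / P d u) u :=
  ((invP_cont hd).integral_hasStrictDerivAt 0 u).hasDerivAt

lemma M_mono {d : ℕ} (hd : 1 ≤ d) : Monotone (fun x => F d x - x / d) := by
  have hdR : (1 : ℝ) ≤ d := by exact_mod_cast hd
  refine monotone_of_hasDerivAt_nonneg (f' := fun x => 1 / P d x - 1 / d) (fun x => ?_) ?_
  · exact (F_der hd x).sub ((hasDerivAt_id x).div_const _)
  · intro x
    have h := P_bounds hd x
    have : 1 / (d : ℝ) ≤ 1 / P d x := one_div_le_one_div_of_le (by linarith) h.2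
    simpa using this

lemma F_strict {d : ℕ} (hd : 1 ≤ d) : StrictMono (F d) := by
  intro x y hxy
  have h := M_mono hd hxy.le
  simp only at h
  have hdR : (0 : ℝ) < d := by exact_mod_cast hd
  have : x / d < y / d := by gcongr
  linarith

lemma F_zero (d : ℕ) : F d 0 = 0 := by unfold F; simp

lemma F_surj {d : ℕ} (hd : 1 ≤ d) : Function.Surjective (F d) := by
  have hdR : (0 : ℝ) < d := by exact_mod_cast hd
  have hc : Continuous (F d) := continuous_iff_continuousAt.2 fun x => (F_der hd x).continuousAt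
  refine hc.surjective ?_ ?_
  · refine tendsto_atTop_mono' _ ?_ (tendsto_id.atTop_div_const hdR)
    filter_upwards [eventually_ge_atTop 0] with x hx
    have h := M_mono hd hx
    simp only [F_zero] at h
    simp only [id]
    simp at h
    linarith
  · refine tendsto_atBot_mono' _ ?_ (tendsto_id.atBot_div_const hdR)
    filter_upwards [eventually_le_atBot 0] with x hx
    have h := M_mono hd hx
    simp only [F_zero] at h
    simp only [id]
    simp at h
    linarith

lemma local_err (f g : ℝ → ℝ) (L : ℝ) (hL : 0 ≤ L)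
    (hf : ∀ t, HasDerivAt f (g t) t)
    (hg : ∀ x ∈ Set.Icc (0 : ℝ) 2, ∀ y ∈ Set.Icc (0 : ℝ) 2, |g x - g y| ≤ L * |x - y|)
    (t h : ℝ) (ht : 0 ≤ t) (hh : 0 < h) (hth : t + h ≤ 2) :
    |f (t + h) - (f t + h * g t)| ≤ L * h ^ 2 := by
  obtain ⟨ξ, hξ, he⟩ := exists_hasDerivAt_eq_slope f g (by linarith : t < t + h)
    (fun x _ => (hf x).continuousAt.continuousWithinAt) (fun x _ => hf x)
  have h1 : f (t + h) - f t = h * g ξ := by
    have h0 : t + h - t = h := by ring
    rw [he, h0]; field_simp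
  have h2 : f (t + h) - (f t + h * g t) = h * (g ξ - g t) := by linarith
  rw [h2, abs_mul, abs_of_pos hh]
  have h3 := hg ξ ⟨by linarith [hξ.1], by linarith [hξ.2]⟩ t ⟨ht, by linarith⟩
  have h4 : |ξ - t| ≤ h := by rw [abs_le]; constructor <;> linarith [hξ.1, hξ.2]
  have h5 : L * |ξ - t| ≤ L * h := mul_le_mul_of_nonneg_left h4 hL
  nlinarith

lemma comp_lip (A : ℝ → ℝ) (hA : ContDiff ℝ 1 A) (R : ℝ) : ∃ L : ℝ, 0 ≤ L ∧
    ∀ x ∈ Set.Icc (0 : ℝ) R, ∀ y ∈ Set.Icc (0 : ℝ) R, |A x - A y| ≤ L * |x - y| := by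
  have h1 : LocallyLipschitzOn (Set.Icc (0 : ℝ) R) A := hA.locallyLipschitz.locallyLipschitzOn
  obtain ⟨K, hK⟩ := h1.exists_lipschitzOnWith_of_compact isCompact_Icc
  refine ⟨K, K.2, fun x hx y hy => ?_⟩
  have := hK.dist_le_mul x hx y hy
  simpa [Real.dist_eq] using this

theorem t_ODE : S_ODE := by
  intro d hd
  have hdR : (1 : ℝ) ≤ d := by exact_mod_cast hd
  set e := StrictMono.orderIsoOfSurjective (F d) (F_strict hd) (F_surj hd) with he
  set u : ℝ → ℝ := fun t => e.symm t with hu
  have hFu : ∀ t, F d (u t) = t := fun t => e.apply_symm_apply t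
  have huc : Continuous u := e.symm.continuous
  have hu0 : u 0 = 0 := by
    apply (F_strict hd).injective
    rw [hFu, F_zero]
  have humono : StrictMono u := e.symm.strictMono
  have hupos : ∀ t, 0 ≤ t → 0 ≤ u t := fun t ht => by
    rw [← hu0]; exact humono.monotone ht
  have hlip : ∀ s t, s ≤ t → u t - u s ≤ d * (t - s) := by
    intro s t hst
    have h := M_mono hd (humono.monotone hst)
    simp only [hFu] at h
    have h2 : u t / d - u s / d ≤ t - s := by linarith
    rw [← sub_div, div_le_iff₀ (by linarith)] at h2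
    linarith
  have hder : ∀ t, HasDerivAt u (P d (u t)) t := by
    intro t
    have h1 := P_bounds hd (u t)
    have := HasDerivAt.of_local_left_inverse (f := F d) (g := u) (a := t) huc.continuousAt
      (F_der hd (u t)) (by have : 0 < P d (u t) := by linarith
                           positivity) (Eventually.of_forall hFu)
    simpa using this
  have hP : ∀ s, 0 ≤ s → P d s = PP d (cc s) := fun s hs => by unfold P; rw [max_eq_left hs]
  -- the two functions
  set A : ℝ → ℝ := fun s => - Real.exp (-s) * PP d (cc s) with hA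
  set B : ℝ → ℝ := fun s => (Real.exp (-s) - s * Real.exp (-s)) * PP d (cc s) with hB
  have hccd : ContDiff ℝ 1 cc := by unfold cc; fun_prop
  have hPPd : ContDiff ℝ 1 (fun s => PP d (cc s)) := by
    unfold PP; exact ContDiff.sum fun j _ => hccd.pow j
  have hAd : ContDiff ℝ 1 A := by
    rw [hA]; exact ContDiff.mul (by fun_prop) hPPd
  have hBd : ContDiff ℝ 1 B := by
    rw [hB]; exact ContDiff.mul (by fun_prop) hPPd
  obtain ⟨LA, hLA0, hLA⟩ := comp_lip A hAd (2 * d)
  obtain ⟨LB, hLB0, hLB⟩ := comp_lip B hBd (2 * d)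
  have hur : ∀ t ∈ Set.Icc (0 : ℝ) 2, u t ∈ Set.Icc (0 : ℝ) (2 * d) := by
    intro t ht
    refine ⟨hupos t ht.1, ?_⟩
    have := hlip 0 t ht.1
    rw [hu0] at this
    have h2 : (d : ℝ) * (t - 0) ≤ d * 2 := by
      apply mul_le_mul_of_nonneg_left _ (by linarith)
      linarith [ht.2]
    linarith
  have hulip : ∀ x y, |u x - u y| ≤ d * |x - y| := by
    intro x y
    rcases le_total x y with h | h
    · have h1 := hlip x y h
      have h2 := humono.monotone h
      rw [abs_sub_comm, abs_of_nonneg (by linarith), abs_sub_comm, abs_of_nonneg (by linarith)]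
      exact h1
    · have h1 := hlip y x h
      have h2 := humono.monotone h
      rw [abs_of_nonneg (by linarith), abs_of_nonneg (by linarith)]
      exact h1
  -- derivatives
  have dα : ∀ t, HasDerivAt (fun t => Real.exp (-u t)) (- Real.exp (-u t) * P d (u t)) t := by
    intro t
    have h : HasDerivAt (fun t => Real.exp (-u t)) (Real.exp (-u t) * (-P d (u t))) t :=
      (hder t).neg.exp
    convert h using 1; ring
  have dβ : ∀ t, HasDerivAt (fun t => u t * Real.exp (-u t))
      ((Real.exp (-u t) - u t * Real.exp (-u t)) * P d (u t)) t := by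
    intro t
    have h : HasDerivAt (fun t => u t * Real.exp (-u t))
      (P d (u t) * Real.exp (-u t) + u t * (- Real.exp (-u t) * P d (u t))) t :=
      (hder t).mul (dα t)
    convert h using 1; ring
  have gA : ∀ x ∈ Set.Icc (0 : ℝ) 2, ∀ y ∈ Set.Icc (0 : ℝ) 2,
      |(- Real.exp (-u x) * P d (u x)) - (- Real.exp (-u y) * P d (u y))| ≤
        (LA * d) * |x - y| := by
    intro x hx y hy
    rw [hP _ (hupos x hx.1), hP _ (hupos y hy.1)]
    have h1 := hLA (u x) (hur x hx) (u y) (hur y hy)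
    have h2 := mul_le_mul_of_nonneg_left (hulip x y) hLA0
    calc _ ≤ LA * |u x - u y| := h1
      _ ≤ LA * (d * |x - y|) := h2
      _ = _ := by ring
  have gB : ∀ x ∈ Set.Icc (0 : ℝ) 2, ∀ y ∈ Set.Icc (0 : ℝ) 2,
      |((Real.exp (-u x) - u x * Real.exp (-u x)) * P d (u x)) -
        ((Real.exp (-u y) - u y * Real.exp (-u y)) * P d (u y))| ≤ (LB * d) * |x - y| := by
    intro x hx y hy
    rw [hP _ (hupos x hx.1), hP _ (hupos y hy.1)]
    have h1 := hLB (u x) (hur x hx) (u y) (hur y hy)
    have h2 := mul_le_mul_of_nonneg_left (hulip x y) hLB0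
    calc _ ≤ LB * |u x - u y| := h1
      _ ≤ LB * (d * |x - y|) := h2
      _ = _ := by ring
  have hLA1 : 0 ≤ LA * d := by positivity
  have hLB1 : 0 ≤ LB * d := by positivity
  refine ⟨u, huc.continuousOn, fun t ht => ⟨hupos t ht, ?_⟩, LA * d + LB * d, by positivity, ?_⟩
  · have h1 : TT d (u t) = F d (u t) := by
      unfold TT F
      apply intervalIntegral.integral_congr
      intro s hs
      rw [Set.uIcc_of_le (hupos t ht)] at hs
      simp only
      rw [hP s hs.1]
    rw [h1, hFu]
  · intro n hn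
    have hnR : (0 : ℝ) < n := by exact_mod_cast hn
    have hcc : ∀ s : ℝ, 1 - Real.exp (-s) - s * Real.exp (-s) = cc s := by
      intro s; unfold cc; ring
    refine ⟨by simp [hu0], by simp [hu0], ?_, ?_⟩
    · intro i hi
      have h0 : 0 ≤ u ((i : ℝ) / n) := hupos _ (by positivity)
      refine ⟨(Real.exp_pos _).le, mul_nonneg h0 (Real.exp_pos _).le, ?_⟩
      have := (cc_nonneg h0).1
      rw [← hcc] at this
      linarith
    · intro i hi
      have hi2 : (i : ℝ) + 1 ≤ 2 * n := by exact_mod_cast hi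
      have ht0 : (0 : ℝ) ≤ (i : ℝ) / n := by positivity
      have hth : (i : ℝ) / n + 1 / n ≤ 2 := by
        rw [← add_div, div_le_iff₀ hnR]; exact hi2
      have hcast : (((i + 1 : ℕ) : ℝ) / n) = (i : ℝ) / n + 1 / n := by push_cast; ring
      have eA := local_err _ _ (LA * d) hLA1 dα gA ((i : ℝ) / n) (1 / n) ht0 (by positivity) hth
      have eB := local_err _ _ (LB * d) hLB1 dβ gB ((i : ℝ) / n) (1 / n) ht0 (by positivity) hth
      rw [hP _ (hupos _ ht0)] at eA eB
      have hk : (1 / (n : ℝ)) ^ 2 = 1 / (n : ℝ) ^ 2 := by rw [div_pow, one_pow]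
      simp only [hcast, hcc]
      constructor
      · have e1 : Real.exp (-u ((i : ℝ) / n)) - Real.exp (-u ((i : ℝ) / n)) *
            PP d (cc (u ((i : ℝ) / n))) / n = Real.exp (-u ((i : ℝ) / n)) + 1 / n *
            (- Real.exp (-u ((i : ℝ) / n)) * PP d (cc (u ((i : ℝ) / n)))) := by ring
        rw [e1]
        refine eA.trans ?_
        rw [hk, mul_one_div]
        gcongr
        linarith
      · have e1 : u ((i : ℝ) / n) * Real.exp (-u ((i : ℝ) / n)) +
            (Real.exp (-u ((i : ℝ) / n)) - u ((i : ℝ) / n) * Real.exp (-u ((i : ℝ) / n))) *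
            PP d (cc (u ((i : ℝ) / n))) / n = u ((i : ℝ) / n) * Real.exp (-u ((i : ℝ) / n)) +
            1 / n * ((Real.exp (-u ((i : ℝ) / n)) - u ((i : ℝ) / n) *
            Real.exp (-u ((i : ℝ) / n))) * PP d (cc (u ((i : ℝ) / n)))) := by ring
        rw [e1]
        refine eB.trans ?_
        rw [hk, mul_one_div]
        gcongr
        linarith

end Pool.Agent.X263.SD
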